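import Pool.Agent.H29.FL4.Stmts

/-!
# Row MEF of the board `fl4`: a flat with three explicit translations
-/

set_option autoImplicit false

open Matrix MeasureTheory

namespace Pool.FL4

open Pool.FLT

namespace H53MEF

open Pool.FLT.H22M

lemma mem_trl (Γ : Subgroup (GZ 4)) (g : GR 4) (m : ℕ) (n : ℤ) (x : aa 4)
    (h : ∃ γ ∈ Γ, inc 4 γ * g = g * ee ((2 * m : ℝ) • x)) :
    (((2 * m : ℕ) : ℝ) * n) • x ∈ trl Γ g := by
  have h1 : (2 * m : ℝ) • x ∈ trl Γ g := h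
  have h2 : (((2 * m : ℕ) : ℝ) * n) • x = n • ((2 * m : ℝ) • x) := by
    rw [← Int.cast_smul_eq_zsmul ℝ n ((2 * m : ℝ) • x), smul_smul]
    congr 1
    push_cast
    ring
  rw [h2]
  exact AddSubgroup.zsmul_mem _ h1 n

end H53MEF

open H53MEF Pool.FLT.H22M

theorem mef (hB : BOXStmt) (hV : VOLStmt) : MEFStmt := by
  intro Γ hΓ
  obtain ⟨m, hm, hS⟩ := sqr 4 Γ hΓ
  have hm1 : (1 : ℝ) ≤ m := by exact_mod_cast hm
  obtain ⟨C0, hC0, hvol⟩ := hV (4 * m) (by positivity)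
  refine ⟨C0, hC0, ?_⟩
  intro g R A B C D hR hA hBB hC hD hdet x0 x1 x2 h0 h1 h2 c0 c1 c2 T hT
  obtain ⟨hcpt, hle⟩ := hvol R hR
  refine ⟨g, rfl, {x : aa 4 | ∃ p a b : ℝ, |p| ≤ 4 * (m : ℝ) ∧ |a| ≤ 4 * (m : ℝ) * R ∧
    |b| ≤ 4 * (m : ℝ) * R ∧ cor x p a b}, hcpt, ?_, ?_⟩
  · refine lt_of_le_of_lt hle ?_
    have h5 : 0 ≤ C0 * R ^ 2 := by positivity
    exact (ENNReal.ofReal_lt_ofReal_iff (lt_of_le_of_lt h5 hT)).mpr hT
  · apply fl_eq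
    intro X
    obtain ⟨n0, n1, n2, p, a, b, hp, ha, hb, hcor⟩ := hB (2 * m) (by omega) R A B C D hR hA hBB hC
      hD hdet x0 x1 x2 X c0 c1 c2
    refine ⟨-((((2 * m : ℕ) : ℝ) * n0) • x0 + (((2 * m : ℕ) : ℝ) * n1) • x1 +
      (((2 * m : ℕ) : ℝ) * n2) • x2), ?_, X + (((2 * m : ℕ) : ℝ) * n0) • x0 +
      (((2 * m : ℕ) : ℝ) * n1) • x1 + (((2 * m : ℕ) : ℝ) * n2) • x2, ?_, ?_⟩
    · apply AddSubgroup.neg_mem
      exact AddSubgroup.add_mem _ (AddSubgroup.add_mem _ (mem_trl Γ g m n0 x0 (hS g x0 h0))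
        (mem_trl Γ g m n1 x1 (hS g x1 h1))) (mem_trl Γ g m n2 x2 (hS g x2 h2))
    · push_cast at hp ha hb
      refine ⟨p, a, b, by linarith, ?_, ?_, hcor⟩
      · linarith
      · linarith
    · abel

end Pool.FL4
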